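import Pool.Agent.H69.TRI.StmtsP

/-! TRI block A, module T1. -/

open scoped Real ComplexConjugate

namespace Pool.TRI.A

private lemma T1_cube (o a b : ℂ) (h1 : o ^ 3 = 1) (h2 : 1 + o + o ^ 2 = 0) :
    (a + b) ^ 3 + (a + o * b) ^ 3 + (a + o ^ 2 * b) ^ 3 = 3 * a ^ 3 + 3 * b ^ 3 := by
  linear_combination (3 * a ^ 2 * b + 3 * a * b ^ 2) * h2 +
    (3 * a * b ^ 2 * o + b ^ 3 * (1 + o ^ 3 + 1)) * h1

private lemma T1_sq (o a b a' b' : ℂ) (h1 : o ^ 3 = 1) (h2 : 1 + o + o ^ 2 = 0) :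
    (a + b) * (a' + b') + (a + o * b) * (a' + o ^ 2 * b') + (a + o ^ 2 * b) * (a' + (o ^ 2) ^ 2 * b')
      = 3 * (a * a') + 3 * (b * b') := by
  linear_combination (a * b' + a' * b) * h2 + (a * b' * o + b * b' * (1 + o ^ 3 + 1)) * h1

private lemma T1_norm (z : ℂ) : ‖z‖ ^ 2 = (z * conj z).re := by
  rw [Complex.mul_conj, Complex.ofReal_re, Complex.normSq_eq_norm_sq]

theorem t1 (h1 : Geo1Stmt) : T1Stmt := by
  obtain ⟨ho3, hos, hoc, hon, -, -, -, hF, -, -, -, -⟩ := h1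
  intro β ζ
  have e0 : aff β ζ = ζ + β * conj ζ := rfl
  have e1 : aff (om * β) ζ = ζ + om * (β * conj ζ) := by unfold aff; ring
  have e2 : aff (om ^ 2 * β) ζ = ζ + om ^ 2 * (β * conj ζ) := by unfold aff; ring
  have hc := congrArg Complex.re (T1_cube om ζ (β * conj ζ) ho3 hos)
  have hs := congrArg Complex.re (T1_sq om ζ (β * conj ζ) (conj ζ) (conj (β * conj ζ)) ho3 hos)
  have c0 : ‖ζ + β * conj ζ‖ ^ 2 =
      ((ζ + β * conj ζ) * (conj ζ + conj (β * conj ζ))).re := by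
    rw [T1_norm, map_add]
  have c1 : ‖ζ + om * (β * conj ζ)‖ ^ 2 =
      ((ζ + om * (β * conj ζ)) * (conj ζ + om ^ 2 * conj (β * conj ζ))).re := by
    rw [T1_norm, map_add, map_mul _ om, hoc]
  have c2 : ‖ζ + om ^ 2 * (β * conj ζ)‖ ^ 2 =
      ((ζ + om ^ 2 * (β * conj ζ)) * (conj ζ + (om ^ 2) ^ 2 * conj (β * conj ζ))).re := by
    rw [T1_norm, map_add, map_mul _ (om ^ 2), map_pow, hoc]
  have cb : ‖β‖ ^ 2 * ‖ζ‖ ^ 2 = ((β * conj ζ) * conj (β * conj ζ)).re := by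
    rw [← T1_norm, norm_mul, Complex.norm_conj]; ring
  have cz : ‖ζ‖ ^ 2 = (ζ * conj ζ).re := T1_norm ζ
  have hc' : ((ζ + β * conj ζ) ^ 3).re + ((ζ + om * (β * conj ζ)) ^ 3).re
      + ((ζ + om ^ 2 * (β * conj ζ)) ^ 3).re = 3 * (ζ ^ 3).re + 3 * ((β * conj ζ) ^ 3).re := by
    have := hc
    simp only [Complex.add_re] at this
    rw [this]
    simp [Complex.mul_re]
  have hs' : ‖ζ + β * conj ζ‖ ^ 2 + ‖ζ + om * (β * conj ζ)‖ ^ 2 + ‖ζ + om ^ 2 * (β * conj ζ)‖ ^ 2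
      = 3 * ‖ζ‖ ^ 2 + 3 * (‖β‖ ^ 2 * ‖ζ‖ ^ 2) := by
    rw [c0, c1, c2, cb, cz, ← Complex.add_re, ← Complex.add_re, hs, Complex.add_re]
    congr 1
    · simp [Complex.mul_re]
    · simp [Complex.mul_re]
  rw [hF, hF, hF, hF, e0, e1, e2]
  linarith

end Pool.TRI.A
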